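import Pool.Agent.H72G.Mod

/-!
For all `a ≥ 4` and `b ≥ 2 a - 2`, and for all even `a ≥ 6` and `b ≥ 2 a - 4`, the non-trivial
`(a, b)`-geproci sets in complex projective three-space fall into continuum many projective
equivalence classes.
-/

set_option autoImplicit false

open Cardinal MvPolynomial

namespace Pool.Agent.Results.MP_e29873_ag.ContinuumOfClasses

/-- The vector space `ℂ⁴`. -/
abbrev V4 : Type := Fin 4 → ℂ

/-- The vector space `ℂ³`. -/
abbrev V3 : Type := Fin 3 → ℂ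

/-- Complex projective three-space. -/
abbrev P3 : Type := Projectivization ℂ V4

/-- The homogeneous coordinate ring of the projective plane. -/
abbrev R3 : Type := MvPolynomial (Fin 3) ℂ

/-- The ideal of the image of `Z` under the projection induced by the linear map `π`: all
polynomials vanishing at `π x` for all representatives `x` of all points of `Z`. -/
noncomputable def imageIdeal (Z : Set P3) (π : V4 →ₗ[ℂ] V3) : Ideal R3 where
  carrier := {F | ∀ (x : V4) (hx : x ≠ 0), Projectivization.mk ℂ x hx ∈ Z → eval (π x) F = 0}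
  zero_mem' := fun _ _ _ => by rw [map_zero]
  add_mem' := fun {F G} hF hG x hx hZ => by rw [map_add, hF x hx hZ, hG x hx hZ, add_zero]
  smul_mem' := fun c F hF x hx hZ => by rw [smul_eq_mul, map_mul, hF x hx hZ, mul_zero]

/-- `Z` is `(a, b)`-geproci: `1 ≤ a ≤ b`, `Z` consists of `a b` points, and for a general point
`P` (outside the zero set of some nonzero polynomial `D`) and the projection from `P`, given by
a linear map `π` from `ℂ⁴` to `ℂ³` with kernel the line `P`, the ideal of the image of `Z` is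
generated by forms `F`, `G` of degrees `a` and `b` that form a regular sequence (so they have no
common component). -/
def IsGeproci (a b : ℕ) (Z : Set P3) : Prop :=
  1 ≤ a ∧ a ≤ b ∧ Z.Finite ∧ Z.ncard = a * b ∧
    ∃ D : MvPolynomial (Fin 4) ℂ, D ≠ 0 ∧ ∀ P : V4, eval P D ≠ 0 →
      ∀ π : V4 →ₗ[ℂ] V3, LinearMap.ker π = Submodule.span ℂ {P} →
        ∃ F G : R3, F.IsHomogeneous a ∧ G.IsHomogeneous b ∧
          RingTheory.Sequence.IsRegular R3 [F, G] ∧ imageIdeal Z π = Ideal.span {F, G}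

/-- `Z` lies in a plane. -/
def IsDegenerate (Z : Set P3) : Prop :=
  ∃ φ : V4 →ₗ[ℂ] ℂ, φ ≠ 0 ∧ ∀ z ∈ Z, φ z.rep = 0

/-- `Z` is an `(r, s)`-grid for some `1 ≤ r ≤ s`: the set of intersection points of `r` pairwise
skew lines with `s` pairwise skew lines, each line of the first family meeting each line of the
second family in exactly one point. Lines are two-dimensional subspaces of `ℂ⁴`. -/
def IsGrid (Z : Set P3) : Prop :=
  ∃ r s : ℕ, 1 ≤ r ∧ r ≤ s ∧ ∃ (A : Fin r → Submodule ℂ V4) (B : Fin s → Submodule ℂ V4),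
    (∀ i, Module.finrank ℂ (A i) = 2) ∧ (∀ j, Module.finrank ℂ (B j) = 2) ∧
    (∀ i i', i ≠ i' → A i ⊓ A i' = ⊥) ∧ (∀ j j', j ≠ j' → B j ⊓ B j' = ⊥) ∧
    (∀ i j, Module.finrank ℂ (A i ⊓ B j : Submodule ℂ V4) = 1) ∧
    Z = {z | ∃ i j, z.submodule = A i ⊓ B j}

/-- A non-trivial `(a, b)`-geproci set: not contained in a plane and not a grid. -/
def IsNontrivialGeproci (a b : ℕ) (Z : Set P3) : Prop :=
  IsGeproci a b Z ∧ ¬ IsDegenerate Z ∧ ¬ IsGrid Z

/-- `Z` is mapped onto `Z'` by a projective transformation. -/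
def ProjectivelyEquivalent (Z Z' : Set P3) : Prop :=
  ∃ g : V4 ≃ₗ[ℂ] V4, Projectivization.map g.toLinearMap g.injective '' Z = Z'

open Pool.Agent.H72G in
lemma of_good {n a ε b : ℕ} {Λ : Fin a → Ln} (hn : 3 ≤ n) (hε : ε ≤ 1) (hΛ : Good n Λ)
    (ha : 2 ≤ a) (hb : 2 * n + ε = b) (hab : a ≤ b) :
    ∃ T : Set (Set P3), #T = 𝔠 ∧ (∀ Z ∈ T, IsNontrivialGeproci a b Z) ∧
      ∀ Z ∈ T, ∀ Z' ∈ T, Z ≠ Z' → ¬ ProjectivelyEquivalent Z Z' := by
  obtain ⟨T, h1, h2, h3⟩ := main hn hε hΛ ha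
  refine ⟨T, h1, ?_, ?_⟩
  · intro Z hZ
    obtain ⟨⟨q1, q2, D, hD0, hD⟩, q4, q5⟩ := h2 Z hZ
    rw [hb] at q2 hD
    refine ⟨⟨by omega, hab, q1, q2, D, hD0, fun P hP π hπ => ?_⟩, q4, q5⟩
    exact hD P hP π hπ
  · intro Z hZ Z' hZ' hne h
    exact hne (h3 Z hZ Z' hZ' h)

open Pool.Agent.H72G in
/-- **Main result.** Let `a ≥ 4` and `b ≥ 2 a - 2`, or let `a ≥ 6` be even and `b ≥ 2 a - 4`. Then
there is a set of continuum many non-trivial `(a, b)`-geproci sets in complex projective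
three-space that are pairwise not projectively equivalent. -/
theorem result (a b : ℕ)
    (hab : (4 ≤ a ∧ 2 * a - 2 ≤ b) ∨ (6 ≤ a ∧ Even a ∧ 2 * a - 4 ≤ b)) :
    ∃ T : Set (Set P3), #T = 𝔠 ∧ (∀ Z ∈ T, IsNontrivialGeproci a b Z) ∧
      ∀ Z ∈ T, ∀ Z' ∈ T, Z ≠ Z' → ¬ ProjectivelyEquivalent Z Z' := by
  by_cases h1 : 2 * a - 2 ≤ b
  · have ha : 4 ≤ a := by omega
    obtain ⟨m, rfl⟩ : ∃ m, a = m + 1 := ⟨a - 1, by omega⟩
    refine of_good (n := b / 2) (ε := b % 2) (by omega) (by omega)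
      (good1 (m := m) (by omega) (by omega)) (by omega) (by omega) (by omega)
  · have h2 : 6 ≤ a ∧ Even a ∧ 2 * a - 4 ≤ b := by
      rcases hab with h | h
      · exact absurd h.2 h1
      · exact h
    obtain ⟨ha, hev, hb⟩ := h2
    obtain ⟨m, rfl⟩ : ∃ m, a = m + 2 := ⟨a - 2, by omega⟩
    have hm : Even m := by
      rw [Nat.even_add] at hev
      exact hev.mpr (by decide)
    refine of_good (n := m) (ε := b - 2 * m) (by omega) (by omega)
      (good2 (m := m) (by omega) le_rfl hm) (by omega) (by omega) (by omega)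

end Pool.Agent.Results.MP_e29873_ag.ContinuumOfClasses
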